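import Pool.Agent.H817.PL.Fin

/-!
# Domains of the affine space which cover closed manifolds with parallel volume: the group has one end

Let `Ω` be a nonempty connected open subset of a real vector space `E` of dimension `n ≥ 2`, and let
`Γ` be a group of volume preserving affine transformations of `E` which preserves `Ω` and acts on `Ω`
properly discontinuously with compact quotient. Then `Γ` has exactly one end.

If `Ω = E` this is clear. Otherwise every boundary point of `Ω` lies on a complete line in the
complement of `Ω`; an almost invariant set defines a locally constant function on the complement of a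
compact set in `Ω`, and with the Poincaré lemma and the lines it is shown to be constant outside of
some compact set.
-/

set_option autoImplicit false

open Set

namespace Pool.Agent.Results.MP_df2bd8_gt.OneEndedGroups

/-- The group `Γ` acts by volume preserving affine transformations on the vector space `E`, it
preserves the nonempty connected open set `Ω`, and it acts on `Ω` properly discontinuously and with
compact quotient. -/
structure Divides {Γ E : Type} [Group Γ] [NormedAddCommGroup E] [NormedSpace ℝ E]
    (hol : Γ →* (E ≃ᵃ[ℝ] E)) (Ω : Set E) : Prop where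
  /-- `Ω` is open -/
  isOpen : IsOpen Ω
  /-- `Ω` is nonempty and connected -/
  isConnected : IsConnected Ω
  /-- `Ω` is invariant -/
  invariant : ∀ g : Γ, ∀ z ∈ Ω, hol g z ∈ Ω
  /-- the volume is preserved -/
  volume : ∀ g : Γ, |LinearMap.det ((hol g).linear : E →ₗ[ℝ] E)| = 1
  /-- the action on `Ω` is properly discontinuous -/
  proper : ∀ K ⊆ Ω, IsCompact K → {g : Γ | ∃ z ∈ K, hol g z ∈ K}.Finite
  /-- the quotient of `Ω` is compact -/
  cocompact : ∃ K ⊆ Ω, IsCompact K ∧ ∀ z ∈ Ω, ∃ g : Γ, ∃ k ∈ K, hol g k = z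

/-- The group `Γ` has exactly one end: it is finitely generated and infinite, and every almost
invariant subset (a subset which differs from its right translates by finite sets) is finite or has a
finite complement. -/
structure HasOneEnd (Γ : Type) [Group Γ] : Prop where
  /-- `Γ` is finitely generated -/
  fg : Group.FG Γ
  /-- `Γ` is infinite -/
  infinite : Infinite Γ
  /-- almost invariant sets are finite or cofinite -/
  almostInvariant : ∀ S : Set Γ, (∀ s : Γ, {g : Γ | ¬ (g ∈ S ↔ g * s ∈ S)}.Finite) →
    S.Finite ∨ Sᶜ.Finite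

/-- If a nonempty connected open subset `Ω` of a real vector space of dimension at least two is
preserved by a group of volume preserving affine transformations which acts on `Ω` properly
discontinuously with compact quotient, then the group has exactly one end. -/
theorem result (E Γ : Type) [NormedAddCommGroup E] [NormedSpace ℝ E] [Group Γ]
    (hn : 2 ≤ Module.finrank ℝ E) (hol : Γ →* (E ≃ᵃ[ℝ] E)) (Ω : Set E) (h : Divides hol Ω) :
    HasOneEnd Γ := by
  have hfd : FiniteDimensional ℝ E := Module.finite_of_finrank_pos (by omega)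
  have hnt : Nontrivial E := Module.nontrivial_of_finrank_pos (R := ℝ) (by omega)
  have hdom : Pool.Agent.H817.PL.Dom hol Ω :=
    ⟨h.isOpen, h.isConnected, h.invariant, h.volume, h.proper, h.cocompact⟩
  have hmul : ∀ (g k : Γ) (z : E), hol (g * k) z = hol g (hol k z) := by
    intro g k z
    rw [map_mul]
    rfl
  have hone : ∀ z : E, hol 1 z = z := by
    intro z
    rw [map_one]
    rfl
  have hinv1 : ∀ (g : Γ) (z : E), hol g⁻¹ (hol g z) = z := by
    intro g z
    rw [← hmul, inv_mul_cancel, hone]
  have hinv2 : ∀ (g : Γ) (z : E), hol g (hol g⁻¹ z) = z := by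
    intro g z
    rw [← hmul, mul_inv_cancel, hone]
  have hcont : ∀ g : Γ, Continuous (hol g) := fun g => (hol g).continuous_of_finiteDimensional
  obtain ⟨K, hKΩ, hK, hcov⟩ := h.cocompact
  refine ⟨?_, ?_, Pool.Agent.H817.PL.f_oneend hn hol Ω hdom⟩
  · -- finitely generated
    obtain ⟨L, hL, hKL, hLΩ⟩ := exists_compact_between hK h.isOpen hKΩ
    obtain ⟨B, hB⟩ : ∃ B : Set E, B = interior L := ⟨_, rfl⟩
    have hBo : IsOpen B := hB ▸ isOpen_interior
    have hBL : B ⊆ L := hB ▸ interior_subset
    obtain ⟨z0, hz0⟩ := h.isConnected.nonempty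
    obtain ⟨S, hS⟩ : ∃ S : Set Γ, S = {γ : Γ | ∃ p ∈ B, hol γ p ∈ B} := ⟨_, rfl⟩
    have hSf : S.Finite := by
      refine (h.proper L hLΩ hL).subset ?_
      rw [hS]
      rintro γ ⟨p, hp, hp'⟩
      exact ⟨p, hBL hp, hBL hp'⟩
    have hgen : Subgroup.closure S = ⊤ := by
      obtain ⟨H, hH⟩ : ∃ H : Subgroup Γ, H = Subgroup.closure S := ⟨_, rfl⟩
      rw [← hH, eq_top_iff]
      intro g0 _
      by_contra hg0
      obtain ⟨V, hV⟩ : ∃ V : Set E, V = ⋃ g ∈ (H : Set Γ), hol g '' B := ⟨_, rfl⟩
      obtain ⟨V', hV'⟩ : ∃ V' : Set E, V' = ⋃ g ∈ (H : Set Γ)ᶜ, hol g '' B := ⟨_, rfl⟩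
      have hop : ∀ g : Γ, IsOpen (hol g '' B) := by
        intro g
        have h1 : hol g '' B = (hol g⁻¹) ⁻¹' B := by
          ext z
          constructor
          · rintro ⟨y, hy, rfl⟩
            show hol g⁻¹ (hol g y) ∈ B
            rwa [hinv1]
          · intro hz
            exact ⟨hol g⁻¹ z, hz, hinv2 g z⟩
        rw [h1]
        exact hBo.preimage (hcont g⁻¹)
      have hVo : IsOpen V := by
        rw [hV]; exact isOpen_biUnion fun g _ => hop g
      have hVo' : IsOpen V' := by
        rw [hV']; exact isOpen_biUnion fun g _ => hop g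
      have hcovB : ∀ p ∈ Ω, ∃ γ : Γ, ∃ q ∈ B, hol γ q = p := by
        intro p hp
        obtain ⟨γ, k, hk, hkp⟩ := hcov p hp
        exact ⟨γ, k, hB ▸ hKL hk, hkp⟩
      have hun : Ω ⊆ V ∪ V' := by
        intro p hp
        obtain ⟨γ, q, hq, rfl⟩ := hcovB p hp
        by_cases hγ : γ ∈ H
        · left; rw [hV]; exact mem_biUnion hγ ⟨q, hq, rfl⟩
        · right; rw [hV']; exact mem_biUnion hγ ⟨q, hq, rfl⟩
      have hdisj : ∀ p, p ∈ V → p ∈ V' → False := by
        intro p h1 h2
        rw [hV] at h1
        rw [hV'] at h2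
        obtain ⟨g, hg, q, hq, rfl⟩ := mem_iUnion₂.1 h1
        obtain ⟨g', hg', q', hq', hqq⟩ := mem_iUnion₂.1 h2
        apply hg'
        have h3 : g⁻¹ * g' ∈ S := by
          rw [hS]
          refine ⟨q', hq', ?_⟩
          rw [hmul, hqq, hinv1]
          exact hq
        have h4 : g⁻¹ * g' ∈ H := hH ▸ Subgroup.subset_closure h3
        have h5 := H.mul_mem hg h4
        rwa [mul_inv_cancel_left] at h5
      obtain ⟨γ1, q1, hq1, -⟩ := hcovB z0 hz0
      have hq1Ω : q1 ∈ Ω := hLΩ (hBL hq1)
      have hVne : (Ω ∩ V).Nonempty := ⟨q1, hq1Ω, by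
        rw [hV]
        refine mem_biUnion (x := 1) H.one_mem ⟨q1, hq1, hone q1⟩⟩
      have hVne' : (Ω ∩ V').Nonempty := ⟨hol g0 q1, h.invariant g0 q1 hq1Ω, by
        rw [hV']
        exact mem_biUnion (x := g0) hg0 ⟨q1, hq1, rfl⟩⟩
      obtain ⟨z, -, hz1, hz2⟩ := h.isConnected.isPreconnected V V' hVo hVo' hun hVne hVne'
      exact hdisj z hz1 hz2
    exact Group.fg_iff.2 ⟨S, hgen, hSf⟩
  · -- infinite
    by_contra hcon
    rw [not_infinite_iff_finite] at hcon
    have hΩc : IsCompact Ω := by
      have h1 : Ω = ⋃ γ : Γ, hol γ '' K := by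
        apply Subset.antisymm
        · intro p hp
          obtain ⟨γ, k, hk, hkp⟩ := hcov p hp
          exact mem_iUnion.2 ⟨γ, k, hk, hkp⟩
        · refine iUnion_subset fun γ => ?_
          rintro _ ⟨k, hk, rfl⟩
          exact h.invariant γ k (hKΩ hk)
      rw [h1]
      exact isCompact_iUnion fun γ => hK.image (hcont γ)
    have hclopen : IsClopen Ω := ⟨hΩc.isClosed, h.isOpen⟩
    have huniv : Ω = univ := hclopen.eq_univ h.isConnected.nonempty
    rw [huniv] at hΩc
    exact noncompact_univ E hΩc

end Pool.Agent.Results.MP_df2bd8_gt.OneEndedGroups
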