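import Pool.Agent.H817.SV.Main

/-!
# Invariant planes with solvable quotient

Markus' conjecture holds for the closed affine manifolds `Γ \ Ω`, with `Ω` a domain of the affine
space, which have a parallel plane field with solvable transverse holonomy.
-/

set_option autoImplicit false

open Pool.Agent.W689.Mk

namespace Pool.Agent.Results.MP_df2bd8_gt.PlanesWithSolvableQuotient

section
variable {Γ E : Type} [Group Γ] [NormedAddCommGroup E] [NormedSpace ℝ E]

/-- the action of `H` by affine maps of `E / W` factors through a solvable group: the affine
holonomy of some derived subgroup of `H` acts trivially on `E / W` -/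
def SolvableModulo (hol : Γ →* (E ≃ᵃ[ℝ] E)) (H : Subgroup Γ) (W : Submodule ℝ E) : Prop :=
  ∃ j : ℕ, ∀ γ ∈ derivedSeries H j, ∀ v : E, hol (γ : Γ) v - v ∈ W

/-- the linear holonomy of `H` preserves the subspace `W` -/
def Preserves (hol : Γ →* (E ≃ᵃ[ℝ] E)) (H : Subgroup Γ) (W : Submodule ℝ E) : Prop :=
  ∀ γ ∈ H, ∀ v ∈ W, (hol γ).linear v ∈ W

end

/-- Let a closed affine manifold (or orbifold) with parallel volume be given by a connected cover
`X` with its group `Γ`, developing map `dev` and holonomy `hol`, and let the developing map be
injective. Suppose that the linear holonomy of some subgroup `H` of finite index preserves a plane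
`W`, and that the action of `H` on the affine space `E / W` is solvable; there is no condition on
the action on the plane `W`, and none on the norms of the action on `E / W`. Then the structure is
complete: the developing map is a homeomorphism. -/
theorem result (E X Γ : Type) [NormedAddCommGroup E] [NormedSpace ℝ E] [FiniteDimensional ℝ E]
    [TopologicalSpace X] [T2Space X] [SecondCountableTopology X] [ConnectedSpace X]
    [Group Γ] [MulAction Γ X] (dev : X → E) (hol : Γ →* (E ≃ᵃ[ℝ] E))
    (D : AffData X Γ E dev hol) (hinj : Function.Injective dev) (H : Subgroup Γ)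
    (hH : H.FiniteIndex) (W : Submodule ℝ E) (hW2 : Module.finrank ℝ W = 2)
    (_hinv : Preserves hol H W) (hW : SolvableModulo hol H W) : IsHomeomorph dev := by
  obtain ⟨j, hj⟩ := hW
  exact (Pool.Agent.H817.SV.plane_case X Γ E dev hol D hinj H hH W hW2 j hj).1

end Pool.Agent.Results.MP_df2bd8_gt.PlanesWithSolvableQuotient
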