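import Pool.Agent.H817.PL.Fin

/-!
# The Markus conjecture for quotients of domains of the affine 3-space

Let `Ω` be a nonempty connected open subset of a real vector space `E` of dimension three, and let
`Γ` be a group of volume preserving affine transformations of `E` which preserves `Ω` and acts on `Ω`
properly discontinuously with compact quotient. Then `Ω = E`. In other words: closed affine
3-manifolds with parallel volume whose developing map is injective are complete.

Outline of the proof, by contradiction. By the earlier results on this page the linear holonomy of
an incomplete quotient is discrete, strongly irreducible, and positive: there is an equivariant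
choice of signs for its limit flags `(a, f)` such that `(f · a') (f' · a) ≥ 0` for any two limit flags.
* Every boundary point of `Ω` lies on a complete line in the complement of `Ω`. With the Poincaré
  lemma for compactly supported 1-forms this implies that `Γ` has one end.
* Positivity implies that at most two limit flags have the same point, that the limits of the
  normalised elements of the group have rank one, and that limit flags converge tangentially. So the
  group is divergent in the full flag manifold, its limit set is connected since `Γ` has one end, and
  since only countably many limit flags are corners or lie on segments, there are limit flags which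
  are transversal to all the other ones.
* A topological argument with these shows that the signs are coherent: a subgroup of finite index of
  the linear holonomy preserves a properly convex cone in `E`.
* This gives an equivariant map from `Ω` to `E` with an image of dimension two, which is impossible
  by the theorem on equivariant maps of closed special affine manifolds (library).
-/

set_option autoImplicit false

namespace Pool.Agent.Results.MP_df2bd8_gt.ThreeDimensionalDomainQuotients

/-- The group `Γ` acts by volume preserving affine transformations on the vector space `E`, it
preserves the nonempty connected open set `Ω`, and it acts on `Ω` properly discontinuously and with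
compact quotient. -/
structure Divides {Γ E : Type} [Group Γ] [NormedAddCommGroup E] [NormedSpace ℝ E]
    (hol : Γ →* (E ≃ᵃ[ℝ] E)) (Ω : Set E) : Prop where
  /-- `Ω` is open -/
  isOpen : IsOpen Ω
  /-- `Ω` is nonempty and connected -/
  isConnected : IsConnected Ω
  /-- `Ω` is invariant -/
  invariant : ∀ g : Γ, ∀ z ∈ Ω, hol g z ∈ Ω
  /-- the volume is preserved -/
  volume : ∀ g : Γ, |LinearMap.det ((hol g).linear : E →ₗ[ℝ] E)| = 1
  /-- the action on `Ω` is properly discontinuous -/
  proper : ∀ K ⊆ Ω, IsCompact K → {g : Γ | ∃ z ∈ K, hol g z ∈ K}.Finite
  /-- the quotient of `Ω` is compact -/
  cocompact : ∃ K ⊆ Ω, IsCompact K ∧ ∀ z ∈ Ω, ∃ g : Γ, ∃ k ∈ K, hol g k = z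

/-- **The Markus conjecture for quotients of domains of the affine 3-space.** If `Ω` is a nonempty
connected open subset of a real vector space of dimension three, and a group of volume preserving
affine transformations preserves `Ω` and acts on it properly discontinuously with compact quotient,
then `Ω` is the whole space. -/
theorem result (E Γ : Type) [NormedAddCommGroup E] [NormedSpace ℝ E] [Group Γ]
    (h3 : Module.finrank ℝ E = 3) (hol : Γ →* (E ≃ᵃ[ℝ] E)) (Ω : Set E) (h : Divides hol Ω) :
    Ω = Set.univ := by
  have hfd : FiniteDimensional ℝ E := Module.finite_of_finrank_pos (by omega)
  have hconn : ConnectedSpace Ω := isConnected_iff_connectedSpace.1 h.isConnected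
  have hmul : ∀ (g k : Γ) (z : E), hol (g * k) z = hol g (hol k z) := by
    intro g k z
    rw [map_mul]
    rfl
  have hone : ∀ z : E, hol 1 z = z := by
    intro z
    rw [map_one]
    rfl
  let _ : MulAction Γ Ω :=
    { smul := fun g z => ⟨hol g z.1, h.invariant g z.1 z.2⟩
      one_smul := fun z => Subtype.ext (hone z.1)
      mul_smul := fun g k z => Subtype.ext (hmul g k z.1) }
  have hcont : ∀ g : Γ, Continuous (hol g) := fun g => (hol g).continuous_of_finiteDimensional
  have D : Pool.Agent.W689.Mk.AffData Ω Γ E (Subtype.val : Ω → E) hol := by
    refine ⟨h.isOpen.isOpenEmbedding_subtypeVal.isLocalHomeomorph, ?_, fun g z => rfl, h.volume,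
      ?_, ?_⟩
    · intro g
      exact ((hcont g).comp continuous_subtype_val).subtype_mk _
    · intro K hK
      refine (h.proper (Subtype.val '' K) ?_ (hK.image continuous_subtype_val)).subset ?_
      · rintro _ ⟨z, -, rfl⟩
        exact z.2
      · rintro g ⟨z, hz, hgz⟩
        exact ⟨z.1, ⟨z, hz, rfl⟩, ⟨g • z, hgz, rfl⟩⟩
    · obtain ⟨K, hK, hc, hcov⟩ := h.cocompact
      refine ⟨Subtype.val ⁻¹' K, ?_, ?_⟩
      · exact (h.isOpen.isOpenEmbedding_subtypeVal.isInducing.isCompact_preimage_iff
          (by rw [Subtype.range_coe]; exact hK)).2 hc
      · intro z
        obtain ⟨g, k, hk, hgk⟩ := hcov z.1 z.2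
        exact ⟨g, ⟨k, hK hk⟩, hk, Subtype.ext hgk⟩
  have hres := Pool.Agent.H817.PL.complete3 D Subtype.val_injective h3
  rw [← Subtype.range_coe (s := Ω)]
  exact hres.surjective.range_eq

end Pool.Agent.Results.MP_df2bd8_gt.ThreeDimensionalDomainQuotients
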